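import Mathlib
import Pool.Agent.N198.GT.Main
import Pool.Agent.LB.KillW

/-!
# Tate classes and determinants of blocks, with bounds for the numbers of exponents

The proofs of `Pool/Agent/N198/GT/Main.lean` for determinants whose exponents satisfy a given condition.
-/

set_option linter.unusedSectionVars false

namespace Pool.Agent.N198.GT

open Module Pool.Agent.H916T

noncomputable section

variable {V : Type} [AddCommGroup V] [Module ℂ V] {q : ℕ} {B : Blocks q} {p m : ℕ}
  [hp : Fact p.Prime] [NeZero m] {ν : ℂ ≃+* PadicAlgCl p} {F : End ℂ V}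

/-- The ring `TateRing` with determinants whose exponents satisfy the condition `E`. -/
inductive TateRingE {p m : ℕ} [Fact p.Prime] [NeZero m] (ν : ℂ ≃+* PadicAlgCl p) (F : End ℂ V)
    {q : ℕ} (B : Blocks q) (E : B.I → Multiset (ZMod m) → Prop) (P : Multiset (ZMod m) → Prop) :
    (κ : Type) → MultilinearMap ℂ (fun _ : κ => V) ℂ → Prop
  | const {κ : Type} [IsEmpty κ] (φ : MultilinearMap ℂ (fun _ : κ => V) ℂ) : TateRingE ν F B E P κ φ
  | pairing (φ : MultilinearMap ℂ (fun _ : Fin 2 => V) ℂ)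
      (hφ : ∀ u v, φ ![F u, F v] = q * φ ![u, v]) : TateRingE ν F B E P (Fin 2) φ
  | det {S : Type} [Fintype S] (i : S → B.I) (s : S → Multiset (ZMod m))
      (hi : ∀ a, B.dualBlock (i a) ≠ i a)
      (hs : ∀ a, B.HasExponents p m ν (i a) (s a) ∧ E (i a) (s a))
      (hP : P (∑ a, s a)) (l : ∀ a, B.pos (i a) → V →ₗ[ℂ] ℂ)
      (hl : ∀ a x v, l a x (F v) = B.lam ⟨i a, x⟩ * l a x v)
      (φ : MultilinearMap ℂ (fun _ : (Σ a, B.pos (i a)) => V) ℂ)
      (hφ : ∀ v, φ v = ∏ a, ∏ x, l a x (v ⟨a, x⟩)) : TateRingE ν F B E P (Σ a, B.pos (i a)) φ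
  | zero (κ : Type) : TateRingE ν F B E P κ 0
  | add {κ : Type} (φ ψ : MultilinearMap ℂ (fun _ : κ => V) ℂ) (hφ : TateRingE ν F B E P κ φ)
      (hψ : TateRingE ν F B E P κ ψ) : TateRingE ν F B E P κ (φ + ψ)
  | smul {κ : Type} (c : ℂ) (φ : MultilinearMap ℂ (fun _ : κ => V) ℂ)
      (hφ : TateRingE ν F B E P κ φ) : TateRingE ν F B E P κ (c • φ)
  | mul {κ κ' κ'' : Type} (e : κ ⊕ κ' ≃ κ'') (φ : MultilinearMap ℂ (fun _ : κ => V) ℂ)
      (φ' : MultilinearMap ℂ (fun _ : κ' => V) ℂ) (ψ : MultilinearMap ℂ (fun _ : κ'' => V) ℂ)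
      (hφ : TateRingE ν F B E P κ φ) (hφ' : TateRingE ν F B E P κ' φ')
      (hψ : ∀ v, ψ v = φ (fun k => v (e (Sum.inl k))) * φ' (fun k => v (e (Sum.inr k)))) :
      TateRingE ν F B E P κ'' ψ

theorem TateRingE.reindex {E : B.I → Multiset (ZMod m) → Prop} {P : Multiset (ZMod m) → Prop}
    {κ κ' : Type} (e : κ ≃ κ') {φ : MultilinearMap ℂ (fun _ : κ => V) ℂ}
    (h : TateRingE ν F B E P κ φ) (ψ : MultilinearMap ℂ (fun _ : κ' => V) ℂ)
    (hψ : ∀ v, ψ v = φ (fun k => v (e k))) : TateRingE ν F B E P κ' ψ := by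
  refine TateRingE.mul ((Equiv.sumEmpty κ Empty).trans e) φ
    (MultilinearMap.constOfIsEmpty ℂ (fun _ : Empty => V) 1) ψ h (TateRingE.const _) fun v => ?_
  rw [MultilinearMap.constOfIsEmpty_apply, Function.const_apply, mul_one, hψ]
  rfl

theorem TateRingE.sum {E : B.I → Multiset (ZMod m) → Prop} {P : Multiset (ZMod m) → Prop}
    {κ : Type} {ι : Type} (s : Finset ι)
    (φ : ι → MultilinearMap ℂ (fun _ : κ => V) ℂ) (h : ∀ i ∈ s, TateRingE ν F B E P κ (φ i)) :
    TateRingE ν F B E P κ (∑ i ∈ s, φ i) := by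
  classical
  induction s using Finset.induction_on with
  | empty => rw [Finset.sum_empty]; exact TateRingE.zero κ
  | insert a s ha ih =>
    rw [Finset.sum_insert ha]
    exact TateRingE.add _ _ (h a (Finset.mem_insert_self _ _))
      (ih fun i hi => h i (Finset.mem_insert_of_mem hi))

/-- Bounds for the exponents. -/
theorem TateRingE.bound {d : ℕ} {P Q : Multiset (ZMod m) → Prop} {N : ℕ}
    (h0 : Q 0) (hPQ : ∀ s, P s → Multiset.card s + d ≤ N → Q s)
    {κ : Type} {φ : MultilinearMap ℂ (fun _ : κ => V) ℂ}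
    (h : TateRingE ν F B (fun i s => Multiset.card s + d ≤ Fintype.card (B.pos i)) P κ φ) :
    Finite κ → Nat.card κ ≤ N → TateRing ν F B Q κ φ := by
  induction h with
  | const φ => exact fun _ _ => TateRing.const φ
  | pairing φ hφ => exact fun _ _ => TateRing.pairing φ hφ
  | @det S _ i s hi hs hP l hl φ hφ =>
    intro _ hN
    refine TateRing.det i s hi (fun q => (hs q).1) ?_ l hl φ hφ
    have hcard : Nat.card (Σ a, B.pos (i a)) = ∑ a, Fintype.card (B.pos (i a)) := by
      rw [Nat.card_eq_fintype_card, Fintype.card_sigma]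
    rcases isEmpty_or_nonempty S with hS | ⟨⟨q0⟩⟩
    · rw [Finset.univ_eq_empty, Finset.sum_empty]
      exact h0
    · refine hPQ _ hP ?_
      rw [hcard] at hN
      refine le_trans ?_ hN
      rw [Multiset.card_sum]
      have h1 : ∑ q : S, (Multiset.card (s q) + d) ≤ ∑ q, Fintype.card (B.pos (i q)) :=
        Finset.sum_le_sum fun q _ => (hs q).2
      rw [Finset.sum_add_distrib] at h1
      have h2 : d ≤ ∑ _q : S, d := Finset.single_le_sum (f := fun _ : S => d)
        (fun _ _ => Nat.zero_le _) (Finset.mem_univ q0)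
      omega
  | zero κ => exact fun _ _ => TateRing.zero κ
  | add φ ψ _ _ h1 h2 => exact fun a b => TateRing.add φ ψ (h1 a b) (h2 a b)
  | smul c φ _ h1 => exact fun a b => TateRing.smul c φ (h1 a b)
  | @mul κ κ' κ'' e φ φ' ψ _ _ hψ h1 h2 =>
    intro hf hN
    have : Finite (κ ⊕ κ') := Finite.of_equiv _ e.symm
    have ha : Finite κ := Finite.sum_left κ'
    have hb : Finite κ' := Finite.sum_right κ
    have hc : Nat.card κ + Nat.card κ' = Nat.card κ'' := by
      rw [← Nat.card_sum, Nat.card_congr e]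
    exact TateRing.mul e φ φ' ψ (h1 ha (by omega)) (h2 hb (by omega)) hψ

/-- If `p` is 1 modulo `m` then the Tate characters are the Hodge characters. -/
theorem isHodge_of_isTate (hpm : (p : ZMod m) = 1) {s : Multiset (ZMod m)} (h : IsTate p m s) :
    Pool.Agent.H916R2.IsHodge m s := by
  obtain ⟨h1, h2, h3, h4⟩ := h
  refine ⟨h1, h2, h3, fun t => ?_⟩
  have h5 := h4 t
  rw [hpm, orderOf_one, Finset.sum_range_one, pow_zero, one_mul] at h5
  simp only [one_mul] at h5
  exact h5

variable (hq : 1 < q) (hB : B.Large) (ν) (F)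
  {E : B.I → Multiset (ZMod m) → Prop}
  (hex : ∀ i, B.dualBlock i = i ∨ ∃ s, B.HasExponents p m ν i s ∧ E i s)
include hq hB hex

/-- The reduced monomials are products of determinants. -/
theorem mono_redE {κ : Type} [Fintype κ] (w : κ → Σ i, B.pos i) (l : κ → V →ₗ[ℂ] ℂ)
    (hl : ∀ k v, l k (F v) = B.lam (w k) * l k v) {j N : ℕ} (hN : 0 < N)
    (hcard : Fintype.card κ = 2 * j) (hw : ∏ k, B.lam (w k) ^ N = (q : ℂ) ^ (N * j))
    (hred : ∀ k k', w k' ≠ B.dual (w k)) : TateRingE ν F B E (IsTate p m) κ (mono l) := by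
  classical
  have hq' : 0 < q := by omega
  -- the multiplicity of a block
  let c : B.I → ℕ := fun i => if h : Nonempty (B.pos i) then cnt w ⟨i, h.some⟩ else 0
  have hc : ∀ z : Σ i, B.pos i, cnt w z = c z.1 := by
    intro z
    have hne : Nonempty (B.pos z.1) := ⟨z.2⟩
    have h0 : c z.1 = cnt w ⟨z.1, hne.some⟩ := dif_pos hne
    rw [h0]
    rcases Nat.eq_zero_or_pos (cnt w z) with h1 | h1
    · rcases Nat.eq_zero_or_pos (cnt w ⟨z.1, hne.some⟩) with h2 | h2
      · rw [h1, h2]
      · have h3 := (cnt_const hq' hB hN hw hred (x := ⟨z.1, hne.some⟩) (y := z) rfl h2).1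
        rw [h3]
    · exact ((cnt_const hq' hB hN hw hred (x := z) (y := ⟨z.1, hne.some⟩) rfl h1).1).symm
  -- the variables
  have hfib : ∀ z : Σ i, B.pos i, Nonempty ({k // w k = z} ≃ Fin (c z.1)) := by
    intro z
    refine ⟨Fintype.equivFinOfCardEq ?_⟩
    rw [← hc z, cnt, Fintype.card_subtype]
  let fib := fun z => (hfib z).some
  let e1 : κ ≃ Σ z : (Σ i, B.pos i), Fin (c z.1) :=
    (Equiv.sigmaFiberEquiv w).symm.trans (Equiv.sigmaCongrRight fib)
  let e2 : (Σ z : (Σ i, B.pos i), Fin (c z.1)) ≃ Σ a : (Σ i, Fin (c i)), B.pos a.1 :=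
    { toFun := fun u => ⟨⟨u.1.1, u.2⟩, u.1.2⟩
      invFun := fun u => ⟨⟨u.1.1, u.2⟩, u.1.2⟩
      left_inv := fun _ => rfl
      right_inv := fun _ => rfl }
  let e : κ ≃ Σ a : (Σ i, Fin (c i)), B.pos a.1 := e1.trans e2
  have he : ∀ (a : Σ i, Fin (c i)) (x : B.pos a.1), w (e.symm ⟨a, x⟩) = ⟨a.1, x⟩ := by
    intro a x
    have h1 : e.symm ⟨a, x⟩ = ((fib ⟨a.1, x⟩).symm a.2).1 := rfl
    rw [h1]
    exact ((fib ⟨a.1, x⟩).symm a.2).2
  have hprod : ∀ g : κ → ℂ, ∏ k, g k = ∏ a : (Σ i, Fin (c i)), ∏ x, g (e.symm ⟨a, x⟩) := by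
    intro g
    rw [← Equiv.prod_comp e.symm g, Fintype.prod_sigma]
  by_cases hempty : ∀ a : (Σ i, Fin (c i)), IsEmpty (B.pos a.1)
  · have h1 : IsEmpty κ := ⟨fun k => (hempty (e k).1).false (e k).2⟩
    exact TateRingE.const _
  -- the multiplicities of blocks without positions vanish
  have hpos : ∀ a : (Σ i, Fin (c i)), Nonempty (B.pos a.1) := by
    rintro ⟨i, y⟩
    by_contra hcon
    have h1 : c i = 0 := dif_neg hcon
    have := y.2
    omega
  have hcp : ∀ (a : Σ i, Fin (c i)) (x : B.pos a.1), 0 < cnt w ⟨a.1, x⟩ := by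
    intro a x
    rw [hc]
    exact lt_of_le_of_lt (Nat.zero_le _) a.2.2
  have hnd : ∀ a : (Σ i, Fin (c i)), B.dualBlock a.1 ≠ a.1 := by
    intro a h
    obtain ⟨x⟩ := hpos a
    exact (cnt_const hq' hB hN hw hred (x := ⟨a.1, x⟩) (y := B.dual ⟨a.1, x⟩)
      (by rw [B.dual_fst]; exact h.symm) (hcp a x)).2 rfl
  choose s hs using fun a : (Σ i, Fin (c i)) => (hex a.1).resolve_left (hnd a)
  have htate : IsTate p m (∑ a, s a) := by
    refine isTate_sum hq (fun a : (Σ i, Fin (c i)) => a.1) s (fun a => (hs a).1) hN (j := j) ?_ ?_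
    · rw [← hcard, Fintype.card_congr e, Fintype.card_sigma]
    · rw [← hw, hprod]
      refine Finset.prod_congr rfl fun a _ => ?_
      rw [← Finset.prod_pow]
      refine Finset.prod_congr rfl fun x _ => ?_
      rw [he]
  have h1 : TateRingE ν F B E (IsTate p m) (Σ a : (Σ i, Fin (c i)), B.pos a.1)
      (mono fun u => l (e.symm u)) := by
    refine TateRingE.det (fun a : (Σ i, Fin (c i)) => a.1) s hnd hs htate
      (fun a x => l (e.symm ⟨a, x⟩)) (fun a x v => ?_) _ fun v => ?_
    · rw [hl, he]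
    · rw [mono_apply, Fintype.prod_sigma]
  refine h1.reindex e.symm _ fun v => ?_
  rw [mono_apply, mono_apply, ← Equiv.prod_comp e.symm]

/-- All monomials which are Tate classes belong to the ring. -/
theorem mono_memE : ∀ (n : ℕ) (κ : Type) [Fintype κ] (_ : Fintype.card κ = n)
    (w : κ → Σ i, B.pos i) (l : κ → V →ₗ[ℂ] ℂ)
    (_ : ∀ k v, l k (F v) = B.lam (w k) * l k v) {j N : ℕ} (_ : 0 < N)
    (_ : Fintype.card κ = 2 * j) (_ : ∏ k, B.lam (w k) ^ N = (q : ℂ) ^ (N * j)),
    TateRingE ν F B E (IsTate p m) κ (mono l) := by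
  intro n
  induction n using Nat.strong_induction_on with
  | _ n ih =>
  intro κ _ hn w l hl j N hN hcard hw
  classical
  by_cases hred : ∀ k k', w k' ≠ B.dual (w k)
  · exact mono_redE ν F hq hB hex w l hl hN hcard hw hred
  push Not at hred
  obtain ⟨k, k', hk⟩ := hred
  have hkk : k' ≠ k := by
    rintro rfl
    exact B.dual_ne _ hk.symm
  let κ' := {a : κ // a ≠ k ∧ a ≠ k'}
  let e : Fin 2 ⊕ κ' ≃ κ := Equiv.ofBijective (Sum.elim ![k, k'] Subtype.val) (by
    constructor
    · rintro (a | a) (b | b) hab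
      · congr 1
        fin_cases a <;> fin_cases b <;> simp_all
      · exfalso
        have h1 := b.2
        fin_cases a
        · exact h1.1 hab.symm
        · exact h1.2 hab.symm
      · exfalso
        have h1 := a.2
        fin_cases b
        · exact h1.1 hab
        · exact h1.2 hab
      · congr 1
        exact Subtype.ext hab
    · intro a
      by_cases h1 : a = k
      · exact ⟨Sum.inl 0, h1.symm⟩
      by_cases h2 : a = k'
      · exact ⟨Sum.inl 1, h2.symm⟩
      exact ⟨Sum.inr ⟨a, h1, h2⟩, rfl⟩)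
  have he0 : e (Sum.inl 0) = k := rfl
  have he1 : e (Sum.inl 1) = k' := rfl
  have her : ∀ a : κ', e (Sum.inr a) = a.1 := fun _ => rfl
  have hc1 : Fintype.card κ = 2 + Fintype.card κ' := by
    rw [← Fintype.card_congr e, Fintype.card_sum, Fintype.card_fin]
  obtain ⟨j', rfl⟩ : ∃ j', j = j' + 1 := ⟨j - 1, by omega⟩
  have hq0 : (q : ℂ) ≠ 0 := Nat.cast_ne_zero.2 (by omega)
  have hw' : ∏ a : κ', B.lam (w a.1) ^ N = (q : ℂ) ^ (N * j') := by
    rw [← Equiv.prod_comp e, Fintype.prod_sum_type, Fin.prod_univ_two, he0, he1, hk, ← mul_pow,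
      B.lam_dual] at hw
    simp only [her] at hw
    rw [mul_add, mul_one, pow_add, mul_comm] at hw
    exact mul_right_cancel₀ (pow_ne_zero _ hq0) hw
  have h1 := ih (Fintype.card κ') (by omega) κ' rfl (fun a => w a.1) (fun a => l a.1)
    (fun a v => hl a.1 v) hN (j := j') (by omega) hw'
  refine TateRingE.mul e (mono ![l k, l k']) _ _ (TateRingE.pairing _ fun u v => ?_) h1 fun v => ?_
  · rw [mono_apply, mono_apply, Fin.prod_univ_two, Fin.prod_univ_two]
    simp only [Matrix.cons_val_zero, Matrix.cons_val_one]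
    rw [hl, hl, hk, ← B.lam_dual (w k)]
    ring
  · rw [mono_apply, mono_apply, mono_apply, ← Equiv.prod_comp e, Fintype.prod_sum_type,
      Fin.prod_univ_two, Fin.prod_univ_two]
    rfl

/-- All Tate classes belong to the ring. -/
theorem tate_memE [FiniteDimensional ℂ V] (hss : ⨆ μ, F.eigenspace μ = ⊤)
    (hlam : ∀ μ, F.HasEigenvalue μ → ∃ x, B.lam x = μ) {κ : Type} [Finite κ]
    (φ : MultilinearMap ℂ (fun _ : κ => V) ℂ) (hφ : IsTateForm F q κ φ) :
    TateRingE ν F B E (IsTate p m) κ φ := by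
  classical
  let _ : Fintype κ := Fintype.ofFinite κ
  obtain ⟨j, N, hj, hN, hφ⟩ := hφ
  rw [Nat.card_eq_fintype_card] at hj
  have hint : DirectSum.IsInternal fun μ : ℂ => F.eigenspace μ :=
    DirectSum.isInternal_submodule_of_iSupIndep_of_iSup_eq_top F.eigenspaces_iSupIndep hss
  let b := hint.collectedBasis fun μ => Module.finBasis ℂ (F.eigenspace μ)
  have hfin : Finite (Σ μ : ℂ, Fin (finrank ℂ (F.eigenspace μ))) :=
    Module.Finite.finite_basis b
  let _ : Fintype (Σ μ : ℂ, Fin (finrank ℂ (F.eigenspace μ))) := Fintype.ofFinite _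
  have hb : ∀ a, F (b a) = a.1 • b a := fun a =>
    Module.End.mem_eigenspace_iff.1 (hint.collectedBasis_mem _ a)
  have hx : ∀ a : (Σ μ : ℂ, Fin (finrank ℂ (F.eigenspace μ))), ∃ x, B.lam x = a.1 := by
    intro a
    apply hlam
    refine Module.End.hasEigenvalue_of_hasEigenvector (x := b a) ⟨?_, b.ne_zero a⟩
    exact hint.collectedBasis_mem _ a
  choose x hx using hx
  -- the expansion
  have hexp : φ = ∑ w : κ → (Σ μ : ℂ, Fin (finrank ℂ (F.eigenspace μ))),
      φ (fun k => b (w k)) • mono fun k => b.coord (w k) := by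
    refine Module.Basis.ext_multilinear (fun _ => b) fun w => ?_
    rw [sum_apply, Finset.sum_eq_single w]
    · rw [smul_apply, mono_apply, smul_eq_mul]
      simp
    · intro w' _ hw'
      rw [smul_apply, mono_apply, smul_eq_mul]
      obtain ⟨k, hk⟩ : ∃ k, w' k ≠ w k := by
        by_contra h
        push Not at h
        exact hw' (funext h)
      rw [Finset.prod_eq_zero (Finset.mem_univ k), mul_zero]
      rw [Module.Basis.coord_apply, Module.Basis.repr_self, Finsupp.single_apply,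
        if_neg (Ne.symm hk)]
    · intro h
      exact (h (Finset.mem_univ _)).elim
  rw [hexp]
  refine TateRingE.sum _ _ fun w _ => ?_
  by_cases h0 : φ (fun k => b (w k)) = 0
  · rw [h0, zero_smul]
    exact TateRingE.zero κ
  refine TateRingE.smul _ _ ?_
  refine mono_memE ν F hq hB hex _ κ rfl (fun k => x (w k)) _ (fun k v => ?_) hN hj ?_
  · -- coordinates are eigenvectors
    rw [hx]
    have h1 : (b.coord (w k)).comp F = (w k).1 • b.coord (w k) := by
      refine b.ext fun a => ?_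
      rw [LinearMap.comp_apply, hb, map_smul, LinearMap.smul_apply, smul_eq_mul, smul_eq_mul,
        Module.Basis.coord_apply, Module.Basis.repr_self, Finsupp.single_apply]
      split_ifs with h
      · rw [h]
      · simp
    exact congrArg (fun g : V →ₗ[ℂ] ℂ => g v) h1
  · have h1 := hφ fun k => b (w k)
    have h2 : ∀ k, (F ^ N) (b (w k)) = ((w k).1 ^ N) • b (w k) := by
      intro k
      have h3 : F.HasEigenvector (w k).1 (b (w k)) :=
        ⟨hint.collectedBasis_mem _ _, b.ne_zero _⟩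
      exact h3.pow_apply N
    simp only [h2] at h1
    rw [MultilinearMap.map_smul_univ, smul_eq_mul] at h1
    have h3 := mul_right_cancel₀ h0 h1
    simp only [hx]
    exact h3

end

end Pool.Agent.N198.GT
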